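import Pool.Agent.Helper78.ME.Wk

/-!
# Machines with several heads: the function of an interval is computed in linear space
-/

namespace Pool.Agent.Helper75.ME

open Pool.Agent.Helper65.LinSpace Pool.Agent.Helper78.ME Finset

variable {α β : Type} [Ctx α] [Ctx β]

theorem lsw_comp {m : α → Wk} {C : α → ℕ} (h : LSW m C) {f : β → α} (hf : LS f) :
    LSW (fun z => m (f z)) (fun z => C (f z)) where
  σ := LS.comp (g := fun z => (m z).σ) h.σ hf
  s := LS.comp (g := fun z => (m z).s) h.s hf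
  N := LS.comp (g := fun z => (m z).N) h.N hf
  d := LS.comp (g := fun z => (m z).d) h.d hf
  e := LS.comp (g := fun z => (m z).e) h.e hf
  k := LS.comp (g := fun z => (m z).k) h.k hf
  lam := LS.comp (g := fun z => (m z).lam) h.lam hf
  aj := LS.comp (g := fun z : α × ℕ => (m z.1).aj z.2) (f := fun z : β × ℕ => (f z.1, z.2)) h.aj
    (by fun_prop)
  pos := LS.comp (g := fun z : α × ℕ × ℕ => (m z.1).pos z.2.1 z.2.2)
    (f := fun z : β × ℕ × ℕ => (f z.1, z.2)) h.pos (by fun_prop)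
  lp := LS.comp (g := fun z : α × ℕ => (m z.1).lp z.2) (f := fun z : β × ℕ => (f z.1, z.2)) h.lp
    (by fun_prop)
  lc := LS.comp (g := fun z : α × ℕ => (m z.1).lc z.2) (f := fun z : β × ℕ => (f z.1, z.2)) h.lc
    (by fun_prop)
  nx := LS.comp (g := fun z : α × ℕ × ℕ => (m z.1).nx z.2.1 z.2.2)
    (f := fun z : β × ℕ × ℕ => (f z.1, z.2)) h.nx (by fun_prop)
  cb := LS.comp (g := fun z : α × ℕ => (m z.1).cb z.2) (f := fun z : β × ℕ => (f z.1, z.2)) h.cb
    (by fun_prop)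
  ix := LS.comp (g := fun z : α × ℕ × ℕ => (m z.1).ix z.2.1 z.2.2)
    (f := fun z : β × ℕ × ℕ => (f z.1, z.2)) h.ix (by fun_prop)
  cel := LS.comp (g := fun z : α × ℕ × ℕ => (m z.1).cel z.2.1 z.2.2)
    (f := fun z : β × ℕ × ℕ => (f z.1, z.2)) h.cel (by fun_prop)
  q0 := LS.comp (g := fun z => (m z).q0) h.q0 hf
  c0 := LS.comp (g := fun z => (m z).c0) h.c0 hf
  bd := LS.comp (g := C) h.bd hf
  hd z := h.hd (f z)
  he z := h.he (f z)
  hk z := h.hk (f z)
  hN z := h.hN (f z)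
  lc_lt z := h.lc_lt (f z)
  c0_lt z := h.c0_lt (f z)
  hC z := h.hC (f z)
  hC' z := h.hC' (f z)

section

variable {m : α → Wk} {C : α → ℕ}

theorem pow_le_C (h : LSW m C) (z : α) {n : ℕ}
    (hn : n ≤ (m z).e * (m z).wn + ((m z).k * (m z).e + 1) * (m z).wc) : 2 ^ n ≤ C z :=
  (Nat.pow_le_pow_right (by norm_num) hn).trans (h.hC z)

theorem wc_le (m : Wk) : m.wc ≤ m.e * m.wn + (m.k * m.e + 1) * m.wc := by
  have : 1 * m.wc ≤ (m.k * m.e + 1) * m.wc := Nat.mul_le_mul_right _ (by omega)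
  omega

theorem σ_le (m : Wk) : m.σ ≤ m.e * m.wn + (m.k * m.e + 1) * m.wc := by
  refine le_trans ?_ (wc_le m)
  unfold Wk.wc
  omega

theorem s_le (m : Wk) (hN : 0 < m.N) : m.s ≤ m.e * m.wn + (m.k * m.e + 1) * m.wc := by
  refine le_trans ?_ (wc_le m)
  unfold Wk.wc
  have : m.s * 1 ≤ m.s * m.N := Nat.mul_le_mul_left _ hN
  omega

theorem ls_wn (h : LSW m C) : LS (fun z => (m z).wn) := by
  have h1 := h.σ
  have h2 := h.e
  have h3 := h.d
  unfold Wk.wn
  fun_prop

theorem ls_wc (h : LSW m C) : LS (fun z => (m z).wc) := by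
  have h1 := h.σ
  have h2 := h.s
  have h3 := h.N
  unfold Wk.wc
  fun_prop

theorem ls_pσ (h : LSW m C) : LS (fun z => 2 ^ (m z).σ) :=
  LS.pow_of_le (f := fun _ => 2) (LS.const 2) h.σ h.bd fun z => pow_le_C h z (σ_le _)

theorem ls_ps (h : LSW m C) : LS (fun z => 2 ^ (m z).s) :=
  LS.pow_of_le (f := fun _ => 2) (LS.const 2) h.s h.bd fun z => pow_le_C h z (s_le _ (h.hN z))

theorem ls_pwc (h : LSW m C) : LS (fun z => 2 ^ (m z).wc) :=
  LS.pow_of_le (f := fun _ => 2) (LS.const 2) (ls_wc h) h.bd fun z => pow_le_C h z (wc_le _)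

theorem ls_plam (h : LSW m C) : LS (fun z => 2 ^ (m z).lam) := by
  refine LS.pow_of_le (f := fun _ => 2) (LS.const 2) h.lam h.bd fun z => ?_
  refine le_trans (Nat.pow_le_pow_right (by norm_num) ?_) (h.hC' z)
  have h1 : 0 < (m z).k * (m z).e := Nat.mul_pos (h.hk z) (h.he z)
  have : (m z).lam * 1 ≤ (m z).lam * ((m z).k * (m z).e) := Nat.mul_le_mul_left _ h1
  omega

theorem ls_pmin (h : LSW m C) {n : α → ℕ} (hn : LS n) :
    LS (fun z => 2 ^ min (n z) ((m z).e * (m z).wn)) := by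
  have h1 := h.e
  have h2 := ls_wn h
  refine LS.pow_of_le (f := fun _ => 2) (LS.const 2)
    (g := fun z => min (n z) ((m z).e * (m z).wn)) (by fun_prop) h.bd fun z => ?_
  refine pow_le_C h z ?_
  have := Nat.min_le_right (n z) ((m z).e * (m z).wn)
  omega

theorem ls_aj (h : LSW m C) {q : α → ℕ} (hq : LS q) : LS (fun z => (m z).aj (q z)) :=
  LS.comp (g := fun z : α × ℕ => (m z.1).aj z.2) (f := fun z => (z, q z)) h.aj
    (LS.prodMk LS.id hq)

theorem ls_lp (h : LSW m C) {q : α → ℕ} (hq : LS q) : LS (fun z => (m z).lp (q z)) :=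
  LS.comp (g := fun z : α × ℕ => (m z.1).lp z.2) (f := fun z => (z, q z)) h.lp
    (LS.prodMk LS.id hq)

theorem ls_lc (h : LSW m C) {q : α → ℕ} (hq : LS q) : LS (fun z => (m z).lc (q z)) :=
  LS.comp (g := fun z : α × ℕ => (m z.1).lc z.2) (f := fun z => (z, q z)) h.lc
    (LS.prodMk LS.id hq)

theorem ls_cb (h : LSW m C) {q : α → ℕ} (hq : LS q) : LS (fun z => (m z).cb (q z)) :=
  LS.comp (g := fun z : α × ℕ => (m z.1).cb z.2) (f := fun z => (z, q z)) h.cb
    (LS.prodMk LS.id hq)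

theorem ls_pos (h : LSW m C) {q v : α → ℕ} (hq : LS q) (hv : LS v) :
    LS (fun z => (m z).pos (q z) (v z)) :=
  LS.comp (g := fun z : α × ℕ × ℕ => (m z.1).pos z.2.1 z.2.2) (f := fun z => (z, q z, v z)) h.pos
    (LS.prodMk LS.id (LS.prodMk hq hv))

theorem ls_nx (h : LSW m C) {q v : α → ℕ} (hq : LS q) (hv : LS v) :
    LS (fun z => (m z).nx (q z) (v z)) :=
  LS.comp (g := fun z : α × ℕ × ℕ => (m z.1).nx z.2.1 z.2.2) (f := fun z => (z, q z, v z)) h.nx
    (LS.prodMk LS.id (LS.prodMk hq hv))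

theorem ls_ix (h : LSW m C) {q v : α → ℕ} (hq : LS q) (hv : LS v) :
    LS (fun z => (m z).ix (q z) (v z)) :=
  LS.comp (g := fun z : α × ℕ × ℕ => (m z.1).ix z.2.1 z.2.2) (f := fun z => (z, q z, v z)) h.ix
    (LS.prodMk LS.id (LS.prodMk hq hv))

theorem ls_cel (h : LSW m C) {q v : α → ℕ} (hq : LS q) (hv : LS v) :
    LS (fun z => (m z).cel (q z) (v z)) :=
  LS.comp (g := fun z : α × ℕ × ℕ => (m z.1).cel z.2.1 z.2.2) (f := fun z => (z, q z, v z)) h.cel
    (LS.prodMk LS.id (LS.prodMk hq hv))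

theorem ls_ap (h : LSW m C) {q : α → ℕ} (hq : LS q) : LS (fun z => (m z).ap (q z)) := by
  unfold Wk.ap
  exact ls_pos h hq (ls_aj h hq)

theorem ls_evA (h : LSW m C) {u y T : α → ℕ} (hu : LS u) (hy : LS y) (hT : LS T) :
    LS (fun z => (m z).evA (u z) (y z) (T z)) := by
  have h1 := ls_pσ h
  unfold Wk.evA
  fun_prop

theorem lk_le (m : Wk) (hm : ∀ v, m.lc v < 2 ^ m.s) (y T p c : ℕ) : m.lk y T p c ≤ c + 2 ^ m.s := by
  unfold Wk.lk
  induction T with
  | zero => exact Nat.le_add_right _ _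
  | succ n ih =>
    rw [nrec_succ]
    generalize nrec c (fun t r => ifz (eq01 (m.lp (dig (2 ^ m.σ) y t)) p) r
      (m.lc (dig (2 ^ m.σ) y t))) n = x at ih ⊢
    unfold ifz
    split_ifs
    · exact ih
    · exact (hm _).le.trans (Nat.le_add_left _ _)

theorem ls_lk (h : LSW m C) {y T p c : α → ℕ} (hy : LS y) (hT : LS T) (hp : LS p) (hc : LS c) :
    LS (fun z => (m z).lk (y z) (T z) (p z) (c z)) := by
  unfold Wk.lk
  have h1 := ls_ps h
  refine LS.nrec (G := c) (N := T) (C := fun z => c z + 2 ^ (m z).s)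
    (K := fun z t r => ifz (eq01 ((m z).lp (dig (2 ^ (m z).σ) (y z) t)) (p z)) r
      ((m z).lc (dig (2 ^ (m z).σ) (y z) t))) hc hT (by fun_prop) ?_ ?_
  · have h' : LSW (fun z : α × ℕ × ℕ => m z.1) (fun z => C z.1) := lsw_comp h LS.fst
    have h2 := ls_pσ h'
    have e1 : LS (fun z : α × ℕ × ℕ => dig (2 ^ (m z.1).σ) (y z.1) z.2.1) := by fun_prop
    have e2 := ls_lp h' e1
    have e3 := ls_lc h' e1
    fun_prop
  · intro z j _
    exact lk_le (m z) (h.lc_lt z) (y z) j (p z) (c z)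

theorem ls_divW (h : LSW m C) {i x : α → ℕ} (hi : LS i) (hx : LS x) :
    LS (fun z => x z / 2 ^ (i z * (m z).wn)) := by
  have h1 := h.e
  have h2 := h.d
  refine LS.congr (LS.divPow (ls_pσ h) hx (LS.mul hi (LS.mul h1 h2))) fun z => ?_
  congr 1
  rw [← pow_mul]
  congr 1
  unfold Wk.wn
  ring

theorem ls_gE (h : LSW m C) {i x l : α → ℕ} (hi : LS i) (hx : LS x) (hl : LS l) :
    LS (fun z => (m z).gE (i z) (x z) (l z)) := by
  have h1 := ls_divW h hi hx
  have h2 := ls_pwc h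
  unfold Wk.gE
  fun_prop

theorem ls_rd (h : LSW m C) {i π x n v y : α → ℕ} (hi : LS i) (hπ : LS π) (hx : LS x)
    (hn : LS n) (hv : LS v) (hy : LS y) :
    LS (fun z => (m z).rd (i z) (π z) (x z) (n z) (v z) (y z)) := by
  have h1 := ls_pσ h
  have h2 := ls_ps h
  have h3 := ls_plam h
  have h4 := h.e
  have h5 := h.d
  have h6 := h.k
  have h7 := ls_ap h hv
  have h8 := ls_aj h hv
  have e1 : LS (fun z => n z / (m z).d * (m z).k + (m z).aj (v z)) := by fun_prop
  have e2 := ls_gE h hi hx e1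
  have e3 := ls_ix h (q := fun z => dig (2 ^ (m z).lam) (π z)
    (n z / (m z).d * (m z).k + (m z).aj (v z))) (by fun_prop) h7
  unfold Wk.rd
  exact ls_lk h hy (T := fun z => i z * ((m z).e * (m z).d) + n z) (by fun_prop) h7 (by fun_prop)

theorem nrec_congr' {g : ℕ} {k k' : ℕ → ℕ → ℕ} {n : ℕ} (h : ∀ i < n, ∀ r, k i r = k' i r) :
    nrec g k n = nrec g k' n := by
  induction n with
  | zero => rfl
  | succ n ih => rw [nrec_succ, nrec_succ, ih fun i hi => h i (by omega), h n (by omega)]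

theorem gen_lt (m : Wk) (i π x n : ℕ) : m.gen i π x n < 2 ^ (m.σ * (i * (m.e * m.d) + n)) := by
  unfold Wk.gen
  induction n with
  | zero =>
    rw [nrec_zero]
    have h1 : m.σ * (i * (m.e * m.d) + 0) = i * m.wn := by
      unfold Wk.wn
      ring
    rw [h1]
    exact Nat.mod_lt _ (by positivity)
  | succ n ih =>
    rw [nrec_succ]
    generalize nrec (x % 2 ^ (i * m.wn)) _ n = y at ih ⊢
    generalize m.nx _ _ = w
    have h1 : w % 2 ^ m.σ + 1 ≤ 2 ^ m.σ := Nat.mod_lt _ (by positivity)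
    have h2 : 2 ^ (m.σ * (i * (m.e * m.d) + (n + 1))) =
        2 ^ (m.σ * (i * (m.e * m.d) + n)) * 2 ^ m.σ := by
      rw [← pow_add]
      congr 1
    rw [h2]
    have h3 : 2 ^ (m.σ * (i * (m.e * m.d) + n)) * (w % 2 ^ m.σ + 1) ≤
        2 ^ (m.σ * (i * (m.e * m.d) + n)) * 2 ^ m.σ := Nat.mul_le_mul_left _ h1
    rw [mul_add, mul_one] at h3
    omega

theorem idx_le {m : Wk} (he : 0 < m.e) {i n : ℕ} (hi : i ≤ m.e - 1) (hn : n ≤ m.e * m.d) :
    m.σ * (i * (m.e * m.d) + n) ≤ m.e * m.wn := by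
  have h1 : i * (m.e * m.d) + n ≤ m.e * (m.e * m.d) := by
    have h2 : (i + 1) * (m.e * m.d) ≤ m.e * (m.e * m.d) := Nat.mul_le_mul_right _ (by omega)
    have h3 : (i + 1) * (m.e * m.d) = i * (m.e * m.d) + m.e * m.d := by ring
    omega
  have h4 : m.e * m.wn = m.σ * (m.e * (m.e * m.d)) := by
    unfold Wk.wn
    ring
  rw [h4]
  exact Nat.mul_le_mul_left _ h1

theorem ls_gen (h : LSW m C) {i π x : α → ℕ} (hi : LS i) (hπ : LS π) (hx : LS x)
    (hie : ∀ z, i z ≤ (m z).e - 1) :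
    LS (fun z => (m z).gen (i z) (π z) (x z) ((m z).e * (m z).d)) := by
  have h1 := h.e
  have h2 := h.d
  have h3 := ls_wn h
  have h4 := ls_pσ h
  have hbd := h.bd
  have key : LS (fun z => nrec (x z % 2 ^ (i z * (m z).wn))
      (fun n y => y + 2 ^ min ((m z).σ * (i z * ((m z).e * (m z).d) + n)) ((m z).e * (m z).wn) *
      ((m z).nx ((m z).evA ((m z).gE (i z) (x z) 0 % 2 ^ (m z).σ) y
        (i z * ((m z).e * (m z).d) + n))
        ((m z).rd (i z) (π z) (x z) n ((m z).evA ((m z).gE (i z) (x z) 0 % 2 ^ (m z).σ) y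
          (i z * ((m z).e * (m z).d) + n)) y) % 2 ^ (m z).σ)) ((m z).e * (m z).d)) := by
    refine LS.nrec (G := fun z => x z % 2 ^ (i z * (m z).wn)) (N := fun z => (m z).e * (m z).d)
      (C := C) (K := fun z n y => y + 2 ^ min ((m z).σ * (i z * ((m z).e * (m z).d) + n))
        ((m z).e * (m z).wn) *
      ((m z).nx ((m z).evA ((m z).gE (i z) (x z) 0 % 2 ^ (m z).σ) y
        (i z * ((m z).e * (m z).d) + n))
        ((m z).rd (i z) (π z) (x z) n ((m z).evA ((m z).gE (i z) (x z) 0 % 2 ^ (m z).σ) y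
          (i z * ((m z).e * (m z).d) + n)) y) % 2 ^ (m z).σ)) ?_ (by fun_prop) hbd ?_ ?_
    · exact LS.modPow (LS.const 2) hx (by fun_prop)
    · have h' : LSW (fun z : α × ℕ × ℕ => m z.1) (fun z => C z.1) := lsw_comp h LS.fst
      have g1 := h'.e
      have g2 := h'.d
      have g3 := h'.σ
      have g4 := ls_pσ h'
      have e0 := ls_gE h' (i := fun z : α × ℕ × ℕ => i z.1) (x := fun z => x z.1)
        (l := fun _ => 0) (by fun_prop) (by fun_prop) (by fun_prop)
      have e1 := ls_evA h' (u := fun z : α × ℕ × ℕ => (m z.1).gE (i z.1) (x z.1) 0 % 2 ^ (m z.1).σ)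
        (y := fun z => z.2.2) (T := fun z => i z.1 * ((m z.1).e * (m z.1).d) + z.2.1)
        (by fun_prop) (by fun_prop) (by fun_prop)
      have e2 := ls_rd h' (i := fun z : α × ℕ × ℕ => i z.1) (π := fun z => π z.1)
        (x := fun z => x z.1) (n := fun z => z.2.1) (y := fun z => z.2.2)
        (by fun_prop) (by fun_prop) (by fun_prop) (by fun_prop) e1 (by fun_prop)
      have e3 := ls_nx h' e1 e2
      have e4 := ls_pmin h' (n := fun z : α × ℕ × ℕ =>
        (m z.1).σ * (i z.1 * ((m z.1).e * (m z.1).d) + z.2.1)) (by fun_prop)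
      fun_prop
    · intro z j hj
      have e5 : nrec (x z % 2 ^ (i z * (m z).wn))
          (fun n y => y + 2 ^ min ((m z).σ * (i z * ((m z).e * (m z).d) + n))
            ((m z).e * (m z).wn) *
          ((m z).nx ((m z).evA ((m z).gE (i z) (x z) 0 % 2 ^ (m z).σ) y
            (i z * ((m z).e * (m z).d) + n))
            ((m z).rd (i z) (π z) (x z) n ((m z).evA ((m z).gE (i z) (x z) 0 % 2 ^ (m z).σ) y
              (i z * ((m z).e * (m z).d) + n)) y) % 2 ^ (m z).σ)) j =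
          (m z).gen (i z) (π z) (x z) j := by
        unfold Wk.gen
        refine nrec_congr' fun n hn r => ?_
        rw [min_eq_left (idx_le (h.he z) (hie z) (by omega))]
      rw [e5]
      refine (gen_lt (m z) (i z) (π z) (x z) j).le.trans ?_
      refine pow_le_C h z ?_
      have := idx_le (h.he z) (hie z) hj
      omega
  refine LS.congr key fun z => ?_
  unfold Wk.gen
  refine nrec_congr' fun n hn r => ?_
  rw [min_eq_left (idx_le (h.he z) (hie z) (by omega))]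

theorem ls_chk (h : LSW m C) {i π x y : α → ℕ} (hi : LS i) (hπ : LS π) (hx : LS x) (hy : LS y) :
    LS (fun z => (m z).chk (i z) (π z) (x z) (y z)) := by
  have h1 := h.e
  have h2 := h.k
  unfold Wk.chk
  refine LS.sum_le (f := fun z n => 1 - eq01 (dig (2 ^ (m z).lam) (π z) n)
    ((m z).cb ((m z).pos ((m z).evA ((m z).gE (i z) (x z) 0 % 2 ^ (m z).σ) (y z)
      (i z * ((m z).e * (m z).d) + n / (m z).k * (m z).d)) (n % (m z).k))))
    (N := fun z => (m z).k * (m z).e) (B := fun _ => 1) ?_ (by fun_prop) (by fun_prop)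
    fun z j _ => Nat.sub_le _ _
  have h' : LSW (fun z : α × ℕ => m z.1) (fun z => C z.1) := lsw_comp h LS.fst
  have g1 := h'.e
  have g2 := h'.d
  have g3 := h'.k
  have g4 := ls_pσ h'
  have g5 := ls_plam h'
  have e0 := ls_gE h' (i := fun z : α × ℕ => i z.1) (x := fun z => x z.1)
    (l := fun _ => 0) (by fun_prop) (by fun_prop) (by fun_prop)
  have e1 := ls_evA h' (u := fun z : α × ℕ => (m z.1).gE (i z.1) (x z.1) 0 % 2 ^ (m z.1).σ)
    (y := fun z => y z.1)
    (T := fun z => i z.1 * ((m z.1).e * (m z.1).d) + z.2 / (m z.1).k * (m z.1).d)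
    (by fun_prop) (by fun_prop) (by fun_prop)
  have e2 := ls_pos h' e1 (v := fun z : α × ℕ => z.2 % (m z.1).k) (by fun_prop)
  have e3 := ls_cb h' e2
  fun_prop

theorem ls_F (h : LSW m C) {i π x : α → ℕ} (hi : LS i) (hπ : LS π) (hx : LS x) :
    LS (fun z => (m z).F (i z) (π z) (x z)) := by
  have h1 := h.e
  have h2 := h.d
  have h3 : LS (fun z => min (i z) ((m z).e - 1)) := by fun_prop
  have e1 := ls_gen h h3 hπ hx fun z => Nat.min_le_right _ _
  have e2 := ls_chk h h3 hπ hx e1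
  have e3 := ls_divW h h3 e1
  unfold Wk.F
  fun_prop

end

/-- LSF. -/
theorem LSF : LSF_stmt := by
  intro α _ m C h
  have h' : LSW (fun z : α × ℕ × ℕ × ℕ => m z.1) (fun z => C z.1) := lsw_comp h LS.fst
  exact ls_F h' (i := fun z : α × ℕ × ℕ × ℕ => z.2.1) (π := fun z => z.2.2.1)
    (x := fun z => z.2.2.2) (by fun_prop) (by fun_prop) (by fun_prop)

end Pool.Agent.Helper75.ME
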